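import Pool.Agent.H14.St1

set_option maxHeartbeats 400000

namespace Pool.Agent.Results.MP_9b64ae_co.NotRich

open Pool.Agent.H14.St

/-- the factor `u_i ⋯ u_{i+n-1}` -/
def factor (u : ℕ → ZMod 2) (i n : ℕ) : List (ZMod 2) := (List.range n).map fun j => u (i + j)

/-- exactly `n + 1` factors of each length `n` -/
def Sturmian (u : ℕ → ZMod 2) : Prop := ∀ n, {w | ∃ i, w = factor u i n}.ncard = n + 1

/-- the map `S`: sums mod 2 of consecutive letters -/
def S (u : ℕ → ZMod 2) : ℕ → ZMod 2 := fun i => u i + u (i + 1)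

/-- number of distinct palindromic factors (the empty word included) of a finite word -/
noncomputable def palCount (w : List (ZMod 2)) : ℕ := {p | p <:+: w ∧ p.reverse = p}.ncard

theorem palCount_eq (w : List (ZMod 2)) :
    palCount w = ((w.tails.flatMap List.inits).toFinset.filter fun p => p.reverse = p).card := by
  rw [palCount, ← Set.ncard_coe_finset]
  congr 1; ext p
  simp only [Set.mem_setOf_eq, Finset.coe_filter, List.mem_toFinset, List.mem_flatMap, List.mem_tails,
    List.mem_inits]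
  refine and_congr_left fun _ => ⟨?_, ?_⟩
  · rintro ⟨s, t, rfl⟩; exact ⟨p ++ t, ⟨s, by simp⟩, ⟨t, rfl⟩⟩
  · rintro ⟨_, ⟨s, rfl⟩, ⟨t, rfl⟩⟩; exact ⟨s, t, by simp⟩

def fl : List ℤ := [0, 0, 0, 1, 1, 2, 2, 2, 3, 3, 4, 4, 4, 5, 5, 6, 6, 7, 7, 7]

theorem result : ∃ (u : ℕ → ZMod 2) (k i n : ℕ), Sturmian u ∧ 1 ≤ k ∧
    palCount (factor (S^[k] u) i n) < (factor (S^[k] u) i n).length + 1 := by
  have lo : (1.4142 : ℝ) < √2 := Real.lt_sqrt_of_sq_lt (by norm_num)
  have hi : √2 < (1.4143 : ℝ) := (Real.sqrt_lt' (by norm_num)).2 (by norm_num)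
  refine ⟨mech (√2 - 1) 0, 6, 0, 13, sturmian (by simpa using irrational_sqrt_two.sub_intCast 1) (by linarith)
    (by linarith), by norm_num, ?_⟩
  have h1 : ∀ j < 20, ⌊(0 : ℝ) + (j : ℕ) * (√2 - 1)⌋ = fl.getD j 0 := by
    intro j hj
    rw [Int.floor_eq_iff]
    interval_cases j <;> simp [fl] <;> (try constructor) <;> linarith
  have h2 : ∀ j < 19, mech (√2 - 1) 0 j = ((fl.getD (j + 1) 0 - fl.getD j 0 : ℤ) : ZMod 2) := by
    intro j hj; rw [mech, h1 _ (by omega), h1 _ (by omega)]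
  have h3 : ∀ (k m : ℕ) (u v : ℕ → ZMod 2), (∀ j < m + k, u j = v j) →
      ∀ j < m, S^[k] u j = S^[k] v j := by
    intro k
    induction k with
    | zero => intro m u v h; exact h
    | succ k ih =>
      intro m u v h
      exact ih m (S u) (S v) fun j hj => by rw [S, S, h j (by omega), h (j + 1) (by omega)]
  have h4 : factor (S^[6] (mech (√2 - 1) 0)) 0 13 =
      factor (S^[6] fun j => ((fl.getD (j + 1) 0 - fl.getD j 0 : ℤ) : ZMod 2)) 0 13 :=
    List.map_congr_left fun j hj => h3 6 13 _ _ h2 _ (by simpa using hj)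
  rw [h4, palCount_eq]
  decide +kernel

end Pool.Agent.Results.MP_9b64ae_co.NotRich
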